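import Pool.Agent.Q102.EXT.Main

/-!
# MP_995dc9_al: every extendable endomorphism of a group admits a coherent choice

Theorem. Let `G` be a group and `α` an endomorphism of `G` such that for every homomorphism
`f : G → H` there is an endomorphism `β` of `H` with `β f = f α`.  Then `α` is an inner automorphism
or the trivial endomorphism, and so `α` admits a coherent choice.

Idea of the proof.  Let `α(g₀) ≠ 1`, and let `r : G → ℕ` be any function.  Choose fields
`F 0, F 1, …` of characteristic `0` of increasing cardinalities, all larger than that of `G ^ G`,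
in a common field `K`.  Let `L` be the wreath product `ℤ ^ G ⋊ G`, let `R` be the ring `∏ F (r(k)+1)`,
`k ∈ G`, let `M = E₃(R)` be the group generated by the elementary matrices `u_ij(x)`, and let
`P₁ = L * M` with amalgamated `ℤ ^ G ≅ u₁₂(ℤ ^ G)`.  Let `P₂ = P₁ * E₃(F 0)` with the amalgamated
cyclic group `⟨w⟩ ≅ ⟨u₁₂(1)⟩`, where `w = u₂₁(δ₁) g₀`.  Let `β` be an endomorphism of `P₂` with
`β f = f α`, where `f : G → L → P₂`.

* The commuting involutions of `E₃` show that a nontrivial homomorphism from `E₃` of a ring with
  `1/2` to an amalgamated product whose base has no elements of order two has its image in a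
  conjugate of a factor.  With this, and as groups `E₃(F)` have no nontrivial homomorphisms to
  groups of smaller cardinality than `F`, `β` cannot kill `a₁ = u₁₂(δ₁)` (it would kill `u₂₁(δ₁)`
  and carry `w` to `f α(g₀)`), and `β` carries `M` to a conjugate `h M h⁻¹`, `h ∈ P₁`.
* So `β` induces `θ : M → M`.  The homomorphism from `P₁` to the wreath product of `SL₃(K)` and `G`
  shows that the support of `θ(a_k)`, `a_k = k a₁ k⁻¹`, is `u⁻¹α(k)u` times the support of
  `θ(a₁) ≠ 1`.  By cardinality, the support of `θ(a_k)` is contained in `{j : r(k) ≤ r(j)}`.  Hence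
  there are `u, s ∈ G` with `r(k) ≤ r(u⁻¹α(k)u s)` for all `k`; and `α` is injective.
* If `G` is finite, an injective function `r` gives `s = 1` and `α(k) = u k u⁻¹`.  If `G` is
  infinite and `α` is not inner, a transfinite induction gives a subset `X` of `G` which is not
  carried into itself by any of the maps `k ↦ u⁻¹α(k)u s`; its indicator function `r` is a
  contradiction.
-/

set_option autoImplicit false

universe u

namespace Pool.Agent.Results.MP_995dc9_al.ExtendableIsInner

/-- The endomorphism `α` of `G` is extendable: for every homomorphism `f : G → H` there is an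
endomorphism `β` of `H` with `β f = f α`. -/
def Extendable {G : Type u} [Group G] (α : G →* G) : Prop :=
  ∀ (H : Type u) [Group H] (f : G →* H), ∃ β : H →* H, β.comp f = f.comp α

/-- The endomorphism `α` of `G` admits a coherent choice: a family of endomorphisms `β H f` of `H`,
for all homomorphisms `f : G → H`, with `(β H f) f = f α`, and such that
`(β H₂ (h f)) h = h (β H₁ f)` for all homomorphisms `f : G → H₁` and `h : H₁ → H₂`. -/
def HasCoherentChoice {G : Type u} [Group G] (α : G →* G) : Prop :=
  ∃ β : ∀ (H : Type u) [Group H], (G →* H) → (H →* H),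
    (∀ (H : Type u) [Group H] (f : G →* H), (β H f).comp f = f.comp α) ∧
    ∀ (H₁ H₂ : Type u) [Group H₁] [Group H₂] (f : G →* H₁) (h : H₁ →* H₂),
      (β H₂ (h.comp f)).comp h = h.comp (β H₁ f)

/-- Every extendable endomorphism of a group admits a coherent choice.  An endomorphism of a group
is extendable if and only if it is an inner automorphism or the trivial endomorphism. -/
theorem result {G : Type u} [Group G] (α : G →* G) :
    (Extendable α → HasCoherentChoice α) ∧
    (Extendable α ↔ (∃ c, ∀ g, α g = c * g * c⁻¹) ∨ ∀ g, α g = 1) := by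
  have key : Extendable α → (∃ c, ∀ g, α g = c * g * c⁻¹) ∨ ∀ g, α g = 1 := fun h =>
    Pool.Agent.Q102.EXT.inner_or_trivial α h
  have coh : ((∃ c, ∀ g, α g = c * g * c⁻¹) ∨ ∀ g, α g = 1) → HasCoherentChoice α := by
    rintro (⟨c, hc⟩ | h1)
    · refine ⟨fun H _ f => (MulAut.conj (f c)).toMonoidHom, ?_, ?_⟩
      · intro H _ f
        ext g
        simp [hc]
      · intro H₁ H₂ _ _ f h
        ext x
        simp
    · refine ⟨fun H _ f => 1, ?_, ?_⟩
      · intro H _ f
        ext g
        simp [h1]
      · intro H₁ H₂ _ _ f h
        ext x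
        simp
  have ext' : HasCoherentChoice α → Extendable α := by
    rintro ⟨β, hβ, -⟩ H _ f
    exact ⟨β H f, hβ H f⟩
  exact ⟨fun h => coh (key h), key, fun h => ext' (coh h)⟩

end Pool.Agent.Results.MP_995dc9_al.ExtendableIsInner
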